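import Mathlib

/-!
Definitions for colourings with hereditarily dense pairs.
-/

set_option autoImplicit false

namespace Pool.Agent.helper890_tame

open Finset

variable {q : ℕ}

/-- Colour `c` is dense between all large subsets of `A` and `B`: whenever `A' ⊆ A` and `B' ⊆ B`
have at least `m` elements each, at least `ε |A'| |B'|` of the pairs in `A' × B'` have colour `c`.
For `m = 1` and `ε > 0` this says that all pairs in `A × B` have colour `c`. -/
def LD (f : ℕ → ℕ → Fin q) (ε : ℝ) (m : ℕ) (c : Fin q) (A B : Finset ℕ) : Prop :=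
  ∀ A' ⊆ A, ∀ B' ⊆ B, m ≤ A'.card → m ≤ B'.card →
    ε * ((A'.card : ℝ) * (B'.card : ℝ)) ≤ (((A' ×ˢ B').filter (fun p => f p.1 p.2 = c)).card : ℝ)

/-- `A` lies to the left of `B`, and the largest distance between a point of `A` and a point of `B`
is at most three times the smallest such distance. -/
def Sepd (A B : Finset ℕ) : Prop :=
  ∀ a ∈ A, ∀ b ∈ B, ∀ a' ∈ A, ∀ b' ∈ B, a < b ∧ b' - a' ≤ 3 * (b - a)

/-- Any two comparably separated nonempty subsets `A`, `B` of `{0, ..., N-1}` contain subsets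
`A' ⊆ A`, `B' ⊆ B` with `|A'| ≥ η |A|`, `|B'| ≥ η |B|` between which some colour is dense on all
subsets with at least `m` elements. -/
def Tame (f : ℕ → ℕ → Fin q) (η ε : ℝ) (m N : ℕ) : Prop :=
  ∀ A B : Finset ℕ, A ⊆ range N → B ⊆ range N → A.Nonempty → B.Nonempty → Sepd A B →
    ∃ c : Fin q, ∃ A' ⊆ A, ∃ B' ⊆ B, η * (A.card : ℝ) ≤ (A'.card : ℝ) ∧
      η * (B.card : ℝ) ≤ (B'.card : ℝ) ∧ LD f ε m c A' B'

end Pool.Agent.helper890_tame
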