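import Pool.Agent.helper890_tame.Defs

/-!
Families of sets of scales realised by a colour: the counting argument for colourings in which any
two comparably separated sets contain large subsets on which one colour is hereditarily dense.
-/

set_option autoImplicit false
set_option linter.unusedSectionVars false
set_option linter.unusedVariables false

namespace Pool.Agent.helper890_tame

open Finset

variable {q : ℕ}

theorem LD.mono {f : ℕ → ℕ → Fin q} {ε : ℝ} {m : ℕ} {c : Fin q} {A B A' B' : Finset ℕ}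
    (h : LD f ε m c A B) (hA : A' ⊆ A) (hB : B' ⊆ B) : LD f ε m c A' B' :=
  fun A'' hA'' B'' hB'' h1 h2 => h A'' (hA''.trans hA) B'' (hB''.trans hB) h1 h2

/-- Realisation of a sequence of scales inside `X` by sets of size at least `M`, pairwise with
colour `c`. -/
def Real (f : ℕ → ℕ → Fin q) (ε : ℝ) (m : ℕ) (M : ℝ) (c : Fin q) (X : Finset ℕ) (g : List ℕ) : Prop :=
  ∃ A : ℕ → Finset ℕ, (∀ i, i ≤ g.length → A i ⊆ X ∧ M ≤ ((A i).card : ℝ)) ∧
    (∀ i j, i < j → j ≤ g.length → LD f ε m c (A i) (A j)) ∧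
    (∀ i (hi : i < g.length), ∀ a ∈ A i, ∀ b ∈ A (i + 1), a + 3 ^ (g[i]) < b ∧ b < a + 3 ^ (g[i] + 1))

variable {f : ℕ → ℕ → Fin q} {ε : ℝ} {m : ℕ} {M : ℝ} {c : Fin q}

theorem Real.mono {X X' : Finset ℕ} {g : List ℕ} (h : Real f ε m M c X g) (hX : X ⊆ X') :
    Real f ε m M c X' g := by
  obtain ⟨A, h1, h2, h3⟩ := h
  exact ⟨A, fun i hi => ⟨(h1 i hi).1.trans hX, (h1 i hi).2⟩, h2, h3⟩

theorem Real.left {X : Finset ℕ} {g g' : List ℕ} (h : Real f ε m M c X (g ++ g')) :
    Real f ε m M c X g := by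
  obtain ⟨A, h1, h2, h3⟩ := h
  have hlen : (g ++ g').length = g.length + g'.length := List.length_append
  refine ⟨A, fun i hi => h1 i (by omega), fun i j hij hj => h2 i j hij (by omega), ?_⟩
  intro i hi a ha b hb
  have h4 := h3 i (by omega) a ha b hb
  rw [List.getElem_append_left hi] at h4
  exact h4

theorem Real.nil {X : Finset ℕ} (hX : M ≤ (X.card : ℝ)) : Real f ε m M c X [] := by
  refine ⟨fun _ => X, fun i _ => ⟨Finset.Subset.refl _, hX⟩, ?_, ?_⟩
  · intro i j hij hj
    simp at hj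
    omega
  · intro i hi
    simp at hi

/-- joining two realisations -/
theorem Real.join {X X₀ X₂ : Finset ℕ} {g g' : List ℕ} {l : ℕ} (h₀ : Real f ε m M c X₀ g)
    (h₂ : Real f ε m M c X₂ g') (hX₀ : X₀ ⊆ X) (hX₂ : X₂ ⊆ X) (hLD : LD f ε m c X₀ X₂)
    (hl : ∀ a ∈ X₀, ∀ b ∈ X₂, a + 3 ^ l < b ∧ b < a + 3 ^ (l + 1)) :
    Real f ε m M c X (g ++ l :: g') := by
  obtain ⟨A, h1, h2, h3⟩ := h₀
  obtain ⟨B, k1, k2, k3⟩ := h₂
  have hlen : (g ++ l :: g').length = g.length + 1 + g'.length := by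
    rw [List.length_append, List.length_cons]; omega
  refine ⟨fun i => if i ≤ g.length then A i else B (i - (g.length + 1)), ?_, ?_, ?_⟩
  · intro i hi
    by_cases h : i ≤ g.length
    · simp only [if_pos h]
      exact ⟨(h1 i h).1.trans hX₀, (h1 i h).2⟩
    · simp only [if_neg h]
      have := k1 (i - (g.length + 1)) (by omega)
      exact ⟨this.1.trans hX₂, this.2⟩
  · intro i j hij hj
    by_cases h : i ≤ g.length
    · by_cases h' : j ≤ g.length
      · simp only [if_pos h, if_pos h']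
        exact h2 i j hij h'
      · simp only [if_pos h, if_neg h']
        exact hLD.mono (h1 i h).1 (k1 _ (by omega)).1
    · have h' : ¬ j ≤ g.length := by omega
      simp only [if_neg h, if_neg h']
      exact k2 _ _ (by omega) (by omega)
  · intro i hi a ha b hb
    rw [hlen] at hi
    rcases Nat.lt_trichotomy i g.length with h | h | h
    · simp only [if_pos h.le] at ha
      simp only [if_pos (show i + 1 ≤ g.length by omega)] at hb
      rw [List.getElem_append_left h]
      exact h3 i h a ha b hb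
    · simp only [if_pos h.le] at ha
      simp only [if_neg (show ¬ i + 1 ≤ g.length by omega)] at hb
      have e1 : (g ++ l :: g')[i]'(by rw [hlen]; omega) = l := by
        subst h
        simp
      rw [e1]
      exact hl a ((h1 i h.le).1 ha) b ((k1 _ (by omega)).1 hb)
    · simp only [if_neg (show ¬ i ≤ g.length by omega)] at ha
      simp only [if_neg (show ¬ i + 1 ≤ g.length by omega)] at hb
      have e2 : i + 1 - (g.length + 1) = (i - (g.length + 1)) + 1 := by omega
      rw [e2] at hb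
      have e1 : (g ++ l :: g')[i]'(by rw [hlen]; omega) =
          g'[i - (g.length + 1)]'(by omega) := by
        rw [List.getElem_append_right (by omega)]
        have : i - g.length = (i - (g.length + 1)) + 1 := by omega
        simp only [this, List.getElem_cons_succ]
      rw [e1]
      exact k3 _ (by omega) a ha b hb

open Classical in
/-- the family of the sets of scales below `v` all of whose enumerations are realised in `X` -/
noncomputable def Fam (f : ℕ → ℕ → Fin q) (ε : ℝ) (m : ℕ) (M : ℝ) (c : Fin q) (v : ℕ) (X : Finset ℕ) :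
    Finset (Finset ℕ) :=
  (range v).powerset.filter (fun S => ∀ g : List ℕ, g.Nodup → g.toFinset = S → Real f ε m M c X g)

theorem mem_Fam {v : ℕ} {X S : Finset ℕ} : S ∈ Fam f ε m M c v X ↔
    S ⊆ range v ∧ ∀ g : List ℕ, g.Nodup → g.toFinset = S → Real f ε m M c X g := by
  classical
  unfold Fam
  rw [Finset.mem_filter, Finset.mem_powerset]

theorem Fam_mono {v v' : ℕ} {X X' : Finset ℕ} (hv : v ≤ v') (hX : X ⊆ X') :
    Fam f ε m M c v X ⊆ Fam f ε m M c v' X' := by
  intro S hS
  rw [mem_Fam] at hS ⊢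
  exact ⟨hS.1.trans (Finset.range_subset_range.2 hv), fun g h1 h2 => (hS.2 g h1 h2).mono hX⟩

theorem Fam_down {v : ℕ} {X S S' : Finset ℕ} (hS : S ∈ Fam f ε m M c v X) (hSS : S' ⊆ S) :
    S' ∈ Fam f ε m M c v X := by
  rw [mem_Fam] at hS ⊢
  refine ⟨hSS.trans hS.1, ?_⟩
  intro g hg hgS
  have h1 : (g ++ (S \ S').toList).Nodup := by
    rw [List.nodup_append]
    refine ⟨hg, Finset.nodup_toList _, ?_⟩
    intro a ha b hb hab
    rw [Finset.mem_toList, Finset.mem_sdiff] at hb
    apply hb.2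
    rw [← hgS, List.mem_toFinset, ← hab]
    exact ha
  have h2 : (g ++ (S \ S').toList).toFinset = S := by
    rw [List.toFinset_append, hgS, Finset.toList_toFinset]
    exact Finset.union_sdiff_of_subset hSS
  exact (hS.2 _ h1 h2).left

theorem empty_mem_Fam {v : ℕ} {X : Finset ℕ} (hX : M ≤ (X.card : ℝ)) :
    ∅ ∈ Fam f ε m M c v X := by
  rw [mem_Fam]
  refine ⟨Finset.empty_subset _, ?_⟩
  intro g _ hg
  have : g = [] := by
    rcases g with _ | ⟨a, g⟩
    · rfl
    · simp at hg
  rw [this]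
  exact Real.nil hX

theorem insert_mem_Fam {l : ℕ} {X X₀ X₂ S : Finset ℕ} (h₀ : S ∈ Fam f ε m M c l X₀)
    (h₂ : S ∈ Fam f ε m M c l X₂) (hX₀ : X₀ ⊆ X) (hX₂ : X₂ ⊆ X) (hLD : LD f ε m c X₀ X₂)
    (hl : ∀ a ∈ X₀, ∀ b ∈ X₂, a + 3 ^ l < b ∧ b < a + 3 ^ (l + 1)) :
    insert l S ∈ Fam f ε m M c (l + 1) X := by
  have hSl : l ∉ S := fun h => by
    have := (mem_Fam.1 h₀).1 h
    rw [Finset.mem_range] at this
    exact lt_irrefl _ this
  rw [mem_Fam]
  refine ⟨?_, ?_⟩
  · intro s hs
    rw [Finset.mem_range]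
    rcases Finset.mem_insert.1 hs with h | h
    · omega
    · have := Finset.mem_range.1 ((mem_Fam.1 h₀).1 h)
      omega
  · intro g hg hgS
    have hlg : l ∈ g := by
      rw [← List.mem_toFinset, hgS]; exact Finset.mem_insert_self _ _
    obtain ⟨g₁, g₂, rfl⟩ := List.append_of_mem hlg
    have hnd := hg
    rw [List.nodup_append] at hnd
    obtain ⟨hn1, hn2, hn3⟩ := hnd
    rw [List.nodup_cons] at hn2
    have hsub1 : g₁.toFinset ⊆ S := by
      intro s hs
      have h1 : s ∈ insert l S := by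
        rw [← hgS, List.mem_toFinset]
        exact List.mem_append_left _ (List.mem_toFinset.1 hs)
      rcases Finset.mem_insert.1 h1 with h | h
      · exfalso
        exact hn3 s (List.mem_toFinset.1 hs) l (List.mem_cons_self) h
      · exact h
    have hsub2 : g₂.toFinset ⊆ S := by
      intro s hs
      have h1 : s ∈ insert l S := by
        rw [← hgS, List.mem_toFinset]
        exact List.mem_append_right _ (List.mem_cons_of_mem _ (List.mem_toFinset.1 hs))
      rcases Finset.mem_insert.1 h1 with h | h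
      · exfalso
        exact hn2.1 (h ▸ List.mem_toFinset.1 hs)
      · exact h
    have r1 := (mem_Fam.1 (Fam_down h₀ hsub1)).2 g₁ hn1 rfl
    have r2 := (mem_Fam.1 (Fam_down h₂ hsub2)).2 g₂ hn2.2 rfl
    exact r1.join r2 hX₀ hX₂ hLD hl

/-- the additive inequality for the colour of the pair -/
theorem Fam_card_add {l : ℕ} {X X₀ X₂ : Finset ℕ} (hX₀ : X₀ ⊆ X) (hX₂ : X₂ ⊆ X)
    (hLD : LD f ε m c X₀ X₂)
    (hl : ∀ a ∈ X₀, ∀ b ∈ X₂, a + 3 ^ l < b ∧ b < a + 3 ^ (l + 1)) :
    (Fam f ε m M c l X₀).card + (Fam f ε m M c l X₂).card ≤ (Fam f ε m M c (l + 1) X).card := by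
  classical
  set F₀ := Fam f ε m M c l X₀
  set F₂ := Fam f ε m M c l X₂
  have hnot : ∀ S ∈ F₀ ∪ F₂, l ∉ S := by
    intro S hS h
    rcases Finset.mem_union.1 hS with h' | h'
    · exact lt_irrefl _ (Finset.mem_range.1 ((mem_Fam.1 h').1 h))
    · exact lt_irrefl _ (Finset.mem_range.1 ((mem_Fam.1 h').1 h))
  have hinj : ((F₀ ∩ F₂).image (insert l)).card = (F₀ ∩ F₂).card := by
    apply Finset.card_image_of_injOn
    intro S hS S' hS' h
    have h1 : l ∉ S := hnot S (Finset.mem_union_left _ (Finset.mem_inter.1 hS).1)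
    have h2 : l ∉ S' := hnot S' (Finset.mem_union_left _ (Finset.mem_inter.1 hS').1)
    have h3 : (insert l S).erase l = (insert l S').erase l := by
      have : insert l S = insert l S' := h
      rw [this]
    rw [Finset.erase_insert h1, Finset.erase_insert h2] at h3
    exact h3
  have hdisj : Disjoint (F₀ ∪ F₂) ((F₀ ∩ F₂).image (insert l)) := by
    rw [Finset.disjoint_left]
    intro S hS hS'
    obtain ⟨S', _, rfl⟩ := Finset.mem_image.1 hS'
    exact hnot _ hS (Finset.mem_insert_self _ _)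
  have hsub : (F₀ ∪ F₂) ∪ (F₀ ∩ F₂).image (insert l) ⊆ Fam f ε m M c (l + 1) X := by
    intro S hS
    rcases Finset.mem_union.1 hS with h | h
    · rcases Finset.mem_union.1 h with h | h
      · exact Fam_mono (Nat.le_succ l) hX₀ h
      · exact Fam_mono (Nat.le_succ l) hX₂ h
    · obtain ⟨S', hS', rfl⟩ := Finset.mem_image.1 h
      obtain ⟨h1, h2⟩ := Finset.mem_inter.1 hS'
      exact insert_mem_Fam h1 h2 hX₀ hX₂ hLD hl
  have h1 := Finset.card_le_card hsub
  rw [Finset.card_union_of_disjoint hdisj, hinj, Finset.card_union_add_card_inter] at h1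
  exact h1

/-- product of the sizes of the families of all colours -/
noncomputable def Ff (f : ℕ → ℕ → Fin q) (ε : ℝ) (m : ℕ) (M : ℝ) (v : ℕ) (X : Finset ℕ) : ℕ :=
  ∏ c : Fin q, (Fam f ε m M c v X).card

theorem Ff_mono {v v' : ℕ} {X X' : Finset ℕ} (hv : v ≤ v') (hX : X ⊆ X') :
    Ff f ε m M v X ≤ Ff f ε m M v' X' :=
  Finset.prod_le_prod' fun c _ => Finset.card_le_card (Fam_mono hv hX)

theorem Ff_pos {v : ℕ} {X : Finset ℕ} (hX : M ≤ (X.card : ℝ)) : 1 ≤ Ff f ε m M v X := by
  unfold Ff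
  apply Finset.one_le_prod'
  intro c _
  exact Finset.card_pos.2 ⟨∅, empty_mem_Fam hX⟩

theorem Ff_add {l : ℕ} {X X₀ X₂ : Finset ℕ} (hX₀ : X₀ ⊆ X) (hX₂ : X₂ ⊆ X)
    (hLD : LD f ε m c X₀ X₂)
    (hl : ∀ a ∈ X₀, ∀ b ∈ X₂, a + 3 ^ l < b ∧ b < a + 3 ^ (l + 1)) :
    Ff f ε m M l X₀ + Ff f ε m M l X₂ ≤ Ff f ε m M (l + 1) X := by
  unfold Ff
  rw [← Finset.mul_prod_erase univ (fun c' => (Fam f ε m M c' l X₀).card) (Finset.mem_univ c),
    ← Finset.mul_prod_erase univ (fun c' => (Fam f ε m M c' l X₂).card) (Finset.mem_univ c),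
    ← Finset.mul_prod_erase univ (fun c' => (Fam f ε m M c' (l + 1) X).card) (Finset.mem_univ c)]
  have h1 : ∏ c' ∈ univ.erase c, (Fam f ε m M c' l X₀).card ≤
      ∏ c' ∈ univ.erase c, (Fam f ε m M c' (l + 1) X).card :=
    Finset.prod_le_prod' fun c' _ => Finset.card_le_card (Fam_mono (Nat.le_succ l) hX₀)
  have h2 : ∏ c' ∈ univ.erase c, (Fam f ε m M c' l X₂).card ≤
      ∏ c' ∈ univ.erase c, (Fam f ε m M c' (l + 1) X).card :=
    Finset.prod_le_prod' fun c' _ => Finset.card_le_card (Fam_mono (Nat.le_succ l) hX₂)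
  have h3 := Fam_card_add (M := M) hX₀ hX₂ hLD hl
  calc (Fam f ε m M c l X₀).card * ∏ c' ∈ univ.erase c, (Fam f ε m M c' l X₀).card +
        (Fam f ε m M c l X₂).card * ∏ c' ∈ univ.erase c, (Fam f ε m M c' l X₂).card
      ≤ (Fam f ε m M c l X₀).card * ∏ c' ∈ univ.erase c, (Fam f ε m M c' (l + 1) X).card +
        (Fam f ε m M c l X₂).card * ∏ c' ∈ univ.erase c, (Fam f ε m M c' (l + 1) X).card :=
        Nat.add_le_add (Nat.mul_le_mul_left _ h1) (Nat.mul_le_mul_left _ h2)
    _ = ((Fam f ε m M c l X₀).card + (Fam f ε m M c l X₂).card) *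
          ∏ c' ∈ univ.erase c, (Fam f ε m M c' (l + 1) X).card := by ring
    _ ≤ _ := Nat.mul_le_mul_right _ h3

/-- the main inequality -/
theorem main_ineq {η : ℝ} (hη : 0 < η) {N : ℕ} (hT : Tame f η ε m N) (K : ℕ)
    (hK : 3 / (2 * η) ≤ 2 ^ K) (C₀ : ℝ) (hC₀ : 4 / η ≤ C₀) (hC₁ : 1 ≤ C₀) (hM : 1 ≤ M) :
    ∀ (v b : ℕ) (X : Finset ℕ), X ⊆ Finset.Ico b (b + 3 ^ v) → X ⊆ range N → M ≤ (X.card : ℝ) →
      (X.card : ℝ) * 3 ^ v ≤ (Ff f ε m M v X : ℝ) ^ K * (C₀ * M) * 8 ^ v := by
  have hCM : 0 < C₀ * M := by positivity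
  intro v
  induction v with
  | zero =>
    intro b X hX _ hMX
    have h1 : (X.card : ℝ) ≤ 1 := by
      have := Finset.card_le_card hX
      rw [Nat.card_Ico] at this
      have h2 : b + 3 ^ 0 - b = 1 := by omega
      rw [h2] at this
      exact_mod_cast this
    have h2 : (1 : ℝ) ≤ (Ff f ε m M 0 X : ℝ) ^ K := by
      apply one_le_pow₀
      exact_mod_cast Ff_pos hMX
    have h3 : 1 ≤ C₀ * M := by nlinarith
    rw [pow_zero, pow_zero, mul_one, mul_one]
    nlinarith
  | succ v ih =>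
    intro b X hX hXN hMX
    have hF1 : (1 : ℝ) ≤ (Ff f ε m M (v + 1) X : ℝ) ^ K := by
      apply one_le_pow₀
      exact_mod_cast Ff_pos hMX
    rcases le_or_gt (X.card : ℝ) (C₀ * M) with hsmall | hbig
    · have h38 : (3 : ℝ) ^ (v + 1) ≤ 8 ^ (v + 1) := pow_le_pow_left₀ (by norm_num) (by norm_num) _
      calc (X.card : ℝ) * 3 ^ (v + 1) ≤ (C₀ * M) * 8 ^ (v + 1) :=
            mul_le_mul hsmall h38 (by positivity) hCM.le
        _ = 1 * (C₀ * M) * 8 ^ (v + 1) := by ring
        _ ≤ _ := mul_le_mul_of_nonneg_right (mul_le_mul_of_nonneg_right hF1 hCM.le) (by positivity)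
    · -- thirds
      set X₀ := X.filter (fun a => a < b + 3 ^ v) with hX₀
      set X₁ := X.filter (fun a => ¬ a < b + 3 ^ v ∧ a < b + 2 * 3 ^ v) with hX₁
      set X₂ := X.filter (fun a => b + 2 * 3 ^ v ≤ a) with hX₂
      have h3v : 0 < 3 ^ v := by positivity
      have hpow : 3 ^ (v + 1) = 3 * 3 ^ v := by ring
      have hcard : (X.card : ℝ) ≤ X₀.card + X₁.card + X₂.card := by
        have : X ⊆ (X₀ ∪ X₁) ∪ X₂ := by
          intro a ha
          rw [Finset.mem_union, Finset.mem_union, hX₀, hX₁, hX₂, Finset.mem_filter,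
            Finset.mem_filter, Finset.mem_filter]
          by_cases h1 : a < b + 3 ^ v
          · exact Or.inl (Or.inl ⟨ha, h1⟩)
          · by_cases h2 : a < b + 2 * 3 ^ v
            · exact Or.inl (Or.inr ⟨ha, h1, h2⟩)
            · exact Or.inr ⟨ha, not_lt.1 h2⟩
        have h1 := Finset.card_le_card this
        have h2 := Finset.card_union_le (X₀ ∪ X₁) X₂
        have h3 := Finset.card_union_le X₀ X₁
        have h4 : X.card ≤ X₀.card + X₁.card + X₂.card := by omega
        exact_mod_cast h4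
      have hs₀ : X₀ ⊆ Finset.Ico b (b + 3 ^ v) := by
        intro a ha
        rw [hX₀, Finset.mem_filter] at ha
        have := Finset.mem_Ico.1 (hX ha.1)
        rw [Finset.mem_Ico]
        exact ⟨this.1, ha.2⟩
      have hs₁ : X₁ ⊆ Finset.Ico (b + 3 ^ v) (b + 3 ^ v + 3 ^ v) := by
        intro a ha
        rw [hX₁, Finset.mem_filter] at ha
        rw [Finset.mem_Ico]
        omega
      have hs₂ : X₂ ⊆ Finset.Ico (b + 2 * 3 ^ v) (b + 2 * 3 ^ v + 3 ^ v) := by
        intro a ha
        rw [hX₂, Finset.mem_filter] at ha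
        have := Finset.mem_Ico.1 (hX ha.1)
        rw [hpow] at this
        rw [Finset.mem_Ico]
        omega
      -- the case of a large third
      have hlarge : ∀ (b' : ℕ) (Y : Finset ℕ), Y ⊆ X → Y ⊆ Finset.Ico b' (b' + 3 ^ v) →
          3 / 8 * (X.card : ℝ) ≤ Y.card →
          (X.card : ℝ) * 3 ^ (v + 1) ≤ (Ff f ε m M (v + 1) X : ℝ) ^ K * (C₀ * M) * 8 ^ (v + 1) := by
        intro b' Y hYX hYI hY
        have hMY : M ≤ (Y.card : ℝ) := by
          by_cases hη4 : η ≤ 1
          · have : 4 ≤ C₀ := by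
              refine le_trans ?_ hC₀
              rw [le_div_iff₀ hη]; linarith
            nlinarith
          · -- then the hypothesis gives `η ≤ 1` anyway unless everything is empty
            push Not at hη4
            exfalso
            -- use tameness for two suitable singletons
            obtain ⟨a₁, ha₁, a₂, ha₂, hne⟩ : ∃ a₁ ∈ X, ∃ a₂ ∈ X, a₁ < a₂ := by
              have h1 : 1 < X.card := by
                have : (1 : ℝ) < X.card := by nlinarith
                exact_mod_cast this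
              obtain ⟨x, hx, y, hy, hxy⟩ := Finset.one_lt_card.1 h1
              rcases lt_or_gt_of_ne hxy with h | h
              · exact ⟨x, hx, y, hy, h⟩
              · exact ⟨y, hy, x, hx, h⟩
            obtain ⟨c', A', hA', B', hB', h1, _, _⟩ := hT {a₁} {a₂}
              (Finset.singleton_subset_iff.2 (hXN ha₁)) (Finset.singleton_subset_iff.2 (hXN ha₂))
              (Finset.singleton_nonempty _) (Finset.singleton_nonempty _) (by
                intro a ha b hb a' ha' b' hb'
                rw [Finset.mem_singleton] at ha hb ha' hb'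
                subst ha; subst hb; subst ha'; subst hb'
                exact ⟨hne, by omega⟩)
            have h2 := Finset.card_le_card hA'
            rw [Finset.card_singleton] at h1 h2
            have h3 : (A'.card : ℝ) ≤ 1 := by exact_mod_cast h2
            push_cast at h1
            linarith
        have h1 := ih b' Y hYI (hYX.trans hXN) hMY
        have h2 : (Ff f ε m M v Y : ℝ) ≤ Ff f ε m M (v + 1) X := by
          exact_mod_cast Ff_mono (Nat.le_succ v) hYX
        have h3 : (Ff f ε m M v Y : ℝ) ^ K ≤ (Ff f ε m M (v + 1) X : ℝ) ^ K :=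
          pow_le_pow_left₀ (by positivity) h2 K
        have h4 : (Y.card : ℝ) * 3 ^ v ≤ (Ff f ε m M (v + 1) X : ℝ) ^ K * (C₀ * M) * 8 ^ v :=
          h1.trans (mul_le_mul_of_nonneg_right (mul_le_mul_of_nonneg_right h3 hCM.le) (by positivity))
        calc (X.card : ℝ) * 3 ^ (v + 1) = 8 * ((3 / 8 * (X.card : ℝ)) * 3 ^ v) := by
              rw [pow_succ]; ring
          _ ≤ 8 * ((Y.card : ℝ) * 3 ^ v) :=
              mul_le_mul_of_nonneg_left (mul_le_mul_of_nonneg_right hY (by positivity)) (by norm_num)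
          _ ≤ 8 * ((Ff f ε m M (v + 1) X : ℝ) ^ K * (C₀ * M) * 8 ^ v) :=
              mul_le_mul_of_nonneg_left h4 (by norm_num)
          _ = _ := by rw [pow_succ]; ring
      by_cases h₀ : 3 / 8 * (X.card : ℝ) ≤ X₀.card
      · exact hlarge b X₀ (Finset.filter_subset _ _) hs₀ h₀
      by_cases h₁ : 3 / 8 * (X.card : ℝ) ≤ X₁.card
      · exact hlarge _ X₁ (Finset.filter_subset _ _) hs₁ h₁
      by_cases h₂ : 3 / 8 * (X.card : ℝ) ≤ X₂.card
      · exact hlarge _ X₂ (Finset.filter_subset _ _) hs₂ h₂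
      push Not at h₀ h₁ h₂
      have hx₀ : (X.card : ℝ) / 4 ≤ X₀.card := by linarith
      have hx₂ : (X.card : ℝ) / 4 ≤ X₂.card := by linarith
      have hXpos : (0 : ℝ) < X.card := by linarith
      have hl : ∀ a ∈ X₀, ∀ b' ∈ X₂, a + 3 ^ v < b' ∧ b' < a + 3 ^ (v + 1) := by
        intro a ha b' hb'
        have h1 := Finset.mem_Ico.1 (hs₀ ha)
        have h2 := Finset.mem_Ico.1 (hs₂ hb')
        rw [hpow]
        omega
      have hne₀ : X₀.Nonempty := by
        rw [← Finset.card_pos]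
        have : (0 : ℝ) < X₀.card := by linarith
        exact_mod_cast this
      have hne₂ : X₂.Nonempty := by
        rw [← Finset.card_pos]
        have : (0 : ℝ) < X₂.card := by linarith
        exact_mod_cast this
      obtain ⟨c, A', hA', B', hB', hcA, hcB, hLD⟩ := hT X₀ X₂
        ((Finset.filter_subset _ _).trans hXN) ((Finset.filter_subset _ _).trans hXN) hne₀ hne₂ (by
          intro a ha b' hb' a' ha' b'' hb''
          have h1 := hl a ha b' hb'
          have h2 := hl a' ha' b'' hb''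
          rw [hpow] at h1 h2
          exact ⟨by omega, by omega⟩)
      have hA4 : η / 4 * (X.card : ℝ) ≤ A'.card := by nlinarith
      have hB4 : η / 4 * (X.card : ℝ) ≤ B'.card := by nlinarith
      have hMηX : M ≤ η / 4 * (X.card : ℝ) := by
        have h1 : 4 ≤ C₀ * η := by
          rw [div_le_iff₀ hη] at hC₀; exact hC₀
        nlinarith
      have hAX : A' ⊆ X := hA'.trans (Finset.filter_subset _ _)
      have hBX : B' ⊆ X := hB'.trans (Finset.filter_subset _ _)
      have i₀ := ih b A' (hA'.trans hs₀) (hAX.trans hXN) (hMηX.trans hA4)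
      have i₂ := ih _ B' (hB'.trans hs₂) (hBX.trans hXN) (hMηX.trans hB4)
      have hadd : (Ff f ε m M v A' : ℝ) + Ff f ε m M v B' ≤ Ff f ε m M (v + 1) X := by
        exact_mod_cast Ff_add hAX hBX hLD (fun a ha b' hb' => hl a (hA' ha) b' (hB' hb'))
      -- the smaller of the two values
      obtain ⟨F, hF0, hF2, hFi⟩ : ∃ F : ℝ, 0 ≤ F ∧ 2 * F ≤ Ff f ε m M (v + 1) X ∧
          η / 4 * (X.card : ℝ) * 3 ^ v ≤ F ^ K * (C₀ * M) * 8 ^ v := by
        rcases le_total (Ff f ε m M v A' : ℝ) (Ff f ε m M v B' : ℝ) with h | h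
        · exact ⟨Ff f ε m M v A', by positivity, by linarith,
            (mul_le_mul_of_nonneg_right hA4 (by positivity)).trans i₀⟩
        · exact ⟨Ff f ε m M v B', by positivity, by linarith,
            (mul_le_mul_of_nonneg_right hB4 (by positivity)).trans i₂⟩
      have hFK : 2 ^ K * F ^ K ≤ (Ff f ε m M (v + 1) X : ℝ) ^ K := by
        rw [← mul_pow]
        exact pow_le_pow_left₀ (by positivity) hF2 K
      have hη2 : 3 ≤ 2 * η * 2 ^ K := by
        rw [div_le_iff₀ (by positivity)] at hK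
        linarith
      have hR : 0 ≤ F ^ K * (C₀ * M) * 8 ^ v := by positivity
      calc (X.card : ℝ) * 3 ^ (v + 1) = 3 * ((X.card : ℝ) * 3 ^ v) := by rw [pow_succ]; ring
        _ ≤ (2 * η * 2 ^ K) * ((X.card : ℝ) * 3 ^ v) :=
            mul_le_mul_of_nonneg_right hη2 (by positivity)
        _ = 8 * 2 ^ K * (η / 4 * (X.card : ℝ) * 3 ^ v) := by ring
        _ ≤ 8 * 2 ^ K * (F ^ K * (C₀ * M) * 8 ^ v) :=
            mul_le_mul_of_nonneg_left hFi (by positivity)
        _ = (2 ^ K * F ^ K) * (C₀ * M) * 8 ^ (v + 1) := by rw [pow_succ (8 : ℝ)]; ring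
        _ ≤ _ := mul_le_mul_of_nonneg_right (mul_le_mul_of_nonneg_right hFK hCM.le) (by positivity)

end Pool.Agent.helper890_tame
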