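import Pool.Agent.helper890_tame.Select

/-!
Assembling the result for all gap orders.
-/

set_option autoImplicit false
set_option linter.unusedSectionVars false
set_option linter.unusedVariables false

namespace Pool.Agent.helper890_tame

open Finset

variable {q : ℕ} {f : ℕ → ℕ → Fin q} {ε : ℝ} {m : ℕ} {M : ℝ} {c : Fin q}

/-- from a set of `t - 1` scales in the family of a colour to the clique with the given gap order -/
theorem clique_of_mem_Fam {t : ℕ} (ht : 2 ≤ t) (π : Equiv.Perm (Fin (t - 1))) {v N : ℕ}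
    {X S : Finset ℕ} (hXN : X ⊆ range N)
    (hm : 1 ≤ m) (E : ℕ) (hE : 1 ≤ ε * E) (hM : (E : ℝ) ^ t * (t * m + 1) ≤ M)
    (hS : S ∈ Fam f ε m M c v X) (hSc : S.card = t - 1) :
    ∃ a : ℕ → ℕ, ∃ col : Fin q,
      (∀ i : ℕ, i + 1 < t → a i < a (i + 1)) ∧
      (∀ i : ℕ, i < t → a i < N) ∧
      (∀ i j : ℕ, i < j → j < t → f (a i) (a j) = col) ∧
      (∀ i j : Fin (t - 1), i < j →
        a (((π j : Fin (t - 1)) : ℕ) + 1) - a ((π j : Fin (t - 1)) : ℕ) <
          a (((π i : Fin (t - 1)) : ℕ) + 1) - a ((π i : Fin (t - 1)) : ℕ)) := by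
  classical
  set e := S.orderEmbOfFin hSc with he
  set g : List ℕ := List.ofFn (fun i : Fin (t - 1) => e (Fin.rev (π.symm i))) with hg
  have hlen : g.length = t - 1 := by rw [hg, List.length_ofFn]
  have hnd : g.Nodup := by
    rw [hg, List.nodup_ofFn]
    intro i j hij
    have h1 := e.injective hij
    have h2 := Fin.rev_injective h1
    exact π.symm.injective h2
  have hto : g.toFinset = S := by
    apply Finset.eq_of_subset_of_card_le
    · intro s hs
      rw [List.mem_toFinset, hg, List.mem_ofFn] at hs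
      obtain ⟨i, rfl⟩ := hs
      exact Finset.orderEmbOfFin_mem S hSc _
    · rw [List.toFinset_card_of_nodup hnd, hlen, hSc]
  obtain ⟨A, h1, h2, h3⟩ := (mem_Fam.1 hS).2 g hnd hto
  obtain ⟨a, ha, hcol⟩ := greedy (f := f) (c := c) hm E hE t A
    (fun i hi => hM.trans (h1 i (by omega)).2)
    (fun i j hij hj => h2 i j hij (by omega))
  have hgap : ∀ i (hi : i < t - 1), a i + 3 ^ (e (Fin.rev (π.symm ⟨i, hi⟩))) < a (i + 1) ∧
      a (i + 1) < a i + 3 ^ (e (Fin.rev (π.symm ⟨i, hi⟩)) + 1) := by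
    intro i hi
    have h4 := h3 i (by omega) (a i) (ha i (by omega)) (a (i + 1)) (ha (i + 1) (by omega))
    have h5 : g[i]'(by omega) = e (Fin.rev (π.symm ⟨i, hi⟩)) := by
      simp only [hg, List.getElem_ofFn]
    rw [h5] at h4
    exact h4
  refine ⟨a, c, ?_, ?_, hcol, ?_⟩
  · intro i hi
    exact lt_of_le_of_lt (Nat.le_add_right _ _) (hgap i (by omega)).1
  · intro i hi
    exact Finset.mem_range.1 (hXN ((h1 i (by omega)).1 (ha i hi)))
  · intro i j hij
    have gi := hgap (π i : Fin (t - 1)) (π i).2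
    have gj := hgap (π j : Fin (t - 1)) (π j).2
    simp only [Fin.eta, Equiv.symm_apply_apply] at gi gj
    have hlt : e (Fin.rev j) < e (Fin.rev i) := by
      apply e.strictMono
      exact Fin.rev_lt_rev.2 hij
    have hpow : 3 ^ (e (Fin.rev j) + 1) ≤ 3 ^ (e (Fin.rev i)) :=
      Nat.pow_le_pow_right (by norm_num) hlt
    omega

theorem main (q : ℕ) (hq : 0 < q) (η ε : ℝ) (hη : 0 < η) (hε : 0 < ε) :
    ∃ C : ℕ, ∀ t : ℕ, 0 < t → ∀ π : Equiv.Perm (Fin (t - 1)), ∀ m : ℕ, 1 ≤ m →
      ∀ N : ℕ, 2 ^ (C * t) * m ^ C ≤ N → ∀ f : ℕ → ℕ → Fin q, Tame f η ε m N →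
        ∃ a : ℕ → ℕ, ∃ col : Fin q,
          (∀ i : ℕ, i + 1 < t → a i < a (i + 1)) ∧
          (∀ i : ℕ, i < t → a i < N) ∧
          (∀ i j : ℕ, i < j → j < t → f (a i) (a j) = col) ∧
          (∀ i j : Fin (t - 1), i < j →
            a (((π j : Fin (t - 1)) : ℕ) + 1) - a ((π j : Fin (t - 1)) : ℕ) <
              a (((π i : Fin (t - 1)) : ℕ) + 1) - a ((π i : Fin (t - 1)) : ℕ)) := by
  -- constants
  obtain ⟨K, hK⟩ := pow_unbounded_of_one_lt (3 / (2 * η)) (by norm_num : (1 : ℝ) < 2)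
  have hK' : 3 / (2 * η) ≤ 2 ^ (K + 1) := by
    rw [pow_succ]
    have : (0 : ℝ) < 2 ^ K := by positivity
    linarith
  set K' := K + 1 with hK'def
  set C₀ : ℝ := max 1 (4 / η) with hC₀def
  have hC₀ : 4 / η ≤ C₀ := le_max_right _ _
  have hC₁ : 1 ≤ C₀ := le_max_left _ _
  obtain ⟨c0, hc0⟩ := pow_unbounded_of_one_lt C₀ (by norm_num : (1 : ℝ) < 2)
  obtain ⟨E, hE⟩ := exists_nat_ge (1 / ε)
  have hE' : 1 ≤ ε * E := by
    rw [div_le_iff₀ hε] at hE
    linarith
  have hE1 : 1 ≤ E := by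
    rcases Nat.eq_zero_or_pos E with h | h
    · rw [h] at hE'; norm_num at hE'
    · exact h
  set Y := 9 * (2 * q * K') with hYdef
  have hn1 : 1 ≤ 2 * q * K' := by
    have : 0 < 2 * q * K' := by positivity
    omega
  have hY1 : 1 ≤ Y := by omega
  have hYp := exists_Y (2 * q * K') hn1
  set B := c0 + E + 1 + Y * (q * K') with hBdef
  refine ⟨24 * (B + 2), ?_⟩
  intro t ht π m hm N hN f hT
  have hN1 : 1 ≤ N := by
    refine le_trans ?_ hN
    have : 0 < 2 ^ (24 * (B + 2) * t) * m ^ (24 * (B + 2)) := by positivity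
    omega
  rcases Nat.lt_or_ge t 2 with ht2 | ht2
  · have ht1 : t = 1 := by omega
    subst ht1
    refine ⟨fun _ => 0, ⟨0, hq⟩, ?_, ?_, ?_, ?_⟩
    · intro i hi; omega
    · intro i hi; exact hN1
    · intro i j hij hj; omega
    · intro i; exact absurd i.2 (by omega)
  · -- the main case
    set M : ℝ := (E : ℝ) ^ t * (t * m + 1) with hMdef
    have hm' : (1 : ℝ) ≤ m := by exact_mod_cast hm
    have hE1' : (1 : ℝ) ≤ E := by exact_mod_cast hE1
    have hM1 : 1 ≤ M := by
      have h1 : (1 : ℝ) ≤ (E : ℝ) ^ t := one_le_pow₀ hE1'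
      have h2 : (1 : ℝ) ≤ (t : ℝ) * m + 1 := by
        have : (0 : ℝ) ≤ (t : ℝ) * m := by positivity
        linarith
      calc (1 : ℝ) = 1 * 1 := (one_mul 1).symm
        _ ≤ _ := mul_le_mul h1 h2 (by norm_num) (by positivity)
    set u := 6 * (B * t + Nat.clog 2 m + 1) with hudef
    have hmclog : m ≤ 2 ^ Nat.clog 2 m := Nat.le_pow_clog (by norm_num) m
    have hclogm : 2 ^ Nat.clog 2 m ≤ 2 * m := by
      rcases Nat.lt_or_ge m 2 with h | h
      · have : m = 1 := by omega
        subst this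
        simp
      · have h1 := Nat.pow_pred_clog_lt_self (b := 2) (by norm_num) (show 1 < m by omega)
        have h2 : 0 < Nat.clog 2 m := Nat.clog_pos (by norm_num) h
        have h3 : Nat.clog 2 m = (Nat.clog 2 m).pred + 1 := (Nat.succ_pred_eq_of_pos h2).symm
        rw [h3, pow_succ]
        omega
    -- the bound `C₀ M Y^(h q K) ≤ 2^(B t) m`
    have hbound : C₀ * M * (Y : ℝ) ^ ((t - 2) * q * K') ≤ 2 ^ (B * t) * m := by
      have b1 : C₀ ≤ 2 ^ (c0 * t) := by
        refine hc0.le.trans ?_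
        exact pow_le_pow_right₀ (by norm_num) (Nat.le_mul_of_pos_right _ ht)
      have b2 : (E : ℝ) ^ t ≤ 2 ^ (E * t) := by
        rw [pow_mul]
        apply pow_le_pow_left₀ (by positivity)
        exact_mod_cast (Nat.lt_two_pow_self (n := E)).le
      have b3 : (t : ℝ) * m + 1 ≤ 2 ^ t * m := by
        have h1 : (t : ℝ) + 1 ≤ 2 ^ t := by
          exact_mod_cast Nat.lt_two_pow_self (n := t)
        nlinarith
      have b4 : (Y : ℝ) ^ ((t - 2) * q * K') ≤ 2 ^ (Y * (q * K') * t) := by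
        have h1 : (Y : ℝ) ≤ 2 ^ Y := by exact_mod_cast (Nat.lt_two_pow_self (n := Y)).le
        calc (Y : ℝ) ^ ((t - 2) * q * K') ≤ (2 ^ Y) ^ ((t - 2) * q * K') :=
              pow_le_pow_left₀ (by positivity) h1 _
          _ = 2 ^ (Y * ((t - 2) * q * K')) := by rw [← pow_mul]
          _ ≤ 2 ^ (Y * (q * K') * t) := by
              apply pow_le_pow_right₀ (by norm_num)
              calc Y * ((t - 2) * q * K') = (t - 2) * (Y * (q * K')) := by ring
                _ ≤ t * (Y * (q * K')) := Nat.mul_le_mul_right _ (by omega)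
                _ = Y * (q * K') * t := by ring
      have p1 : (0 : ℝ) < (E : ℝ) ^ t := by positivity
      have p2 : (0 : ℝ) ≤ (t : ℝ) * m + 1 := by positivity
      calc C₀ * M * (Y : ℝ) ^ ((t - 2) * q * K')
          ≤ 2 ^ (c0 * t) * (2 ^ (E * t) * (2 ^ t * m)) * 2 ^ (Y * (q * K') * t) := by
            apply mul_le_mul _ b4 (by positivity) (by positivity)
            apply mul_le_mul b1 _ (by positivity) (by positivity)
            rw [hMdef]
            exact mul_le_mul b2 b3 p2 (by positivity)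
        _ = 2 ^ (B * t) * m := by
            rw [hBdef]
            have : (c0 + E + 1 + Y * (q * K')) * t = c0 * t + E * t + t + Y * (q * K') * t := by ring
            rw [this, pow_add, pow_add, pow_add]
            ring
    have hu98 : (2 : ℝ) ^ (B * t) * m < (9 / 8) ^ u := by
      have h1 : (2 : ℝ) ^ (B * t + Nat.clog 2 m + 1) ≤ (9 / 8) ^ u := by
        rw [hudef, pow_mul]
        apply pow_le_pow_left₀ (by norm_num)
        norm_num
      have h2 : (m : ℝ) ≤ 2 ^ Nat.clog 2 m := by exact_mod_cast hmclog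
      have h3 : (0 : ℝ) < 2 ^ (B * t) := by positivity
      calc (2 : ℝ) ^ (B * t) * m ≤ 2 ^ (B * t) * 2 ^ Nat.clog 2 m :=
            mul_le_mul_of_nonneg_left h2 h3.le
        _ < 2 ^ (B * t) * 2 ^ Nat.clog 2 m * 2 := by
            have : (0 : ℝ) < 2 ^ (B * t) * 2 ^ Nat.clog 2 m := by positivity
            linarith
        _ = 2 ^ (B * t + Nat.clog 2 m + 1) := by rw [pow_succ, pow_add]
        _ ≤ _ := h1
    have hNu : 3 ^ (2 * u) ≤ N := by
      refine le_trans ?_ hN
      have hE2 : 24 * (B * t + Nat.clog 2 m + 1) = 4 * u := by rw [hudef]; ring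
      calc 3 ^ (2 * u) = (3 ^ 2) ^ u := by rw [pow_mul]
        _ ≤ (2 ^ 4) ^ u := Nat.pow_le_pow_left (by norm_num) u
        _ = 2 ^ (24 * (B * t + Nat.clog 2 m + 1)) := by rw [← pow_mul, hE2]
        _ = 2 ^ (24 * (B * t + 1)) * (2 ^ Nat.clog 2 m) ^ 24 := by
            rw [← pow_mul, ← pow_add]
            congr 1
            ring
        _ ≤ 2 ^ (24 * (B * t + 1)) * (2 * m) ^ 24 :=
            Nat.mul_le_mul_left _ (Nat.pow_le_pow_left hclogm 24)
        _ = 2 ^ (24 * (B * t + 2)) * m ^ 24 := by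
            rw [mul_pow, ← mul_assoc, ← pow_add]
            congr 2
        _ ≤ 2 ^ (24 * (B + 2) * t) * m ^ (24 * (B + 2)) := by
            apply Nat.mul_le_mul
            · apply Nat.pow_le_pow_right (by norm_num)
              rw [mul_assoc]
              apply Nat.mul_le_mul_left
              nlinarith
            · apply Nat.pow_le_pow_right (by omega)
              nlinarith
    have hMu : M ≤ 3 ^ (2 * u) := by
      have h1 : M ≤ C₀ * M * (Y : ℝ) ^ ((t - 2) * q * K') := by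
        have h2 : (1 : ℝ) ≤ (Y : ℝ) ^ ((t - 2) * q * K') := one_le_pow₀ (by exact_mod_cast hY1)
        have h3 : M ≤ C₀ * M := by nlinarith
        have h4 : (0 : ℝ) ≤ C₀ * M := by positivity
        nlinarith
      have h5 : (9 / 8 : ℝ) ^ u ≤ 3 ^ (2 * u) := by
        rw [pow_mul (3 : ℝ) 2 u]
        apply pow_le_pow_left₀ (by norm_num)
        norm_num
      exact ((h1.trans hbound).trans hu98.le).trans h5
    obtain ⟨c, S, hS, hSc⟩ := exists_large (f := f) hη hq hT K' (by omega) hK' C₀ hC₀ hC₁ hM1 u (t - 2) Y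
      hY1 hYp hNu hMu (hbound.trans_lt hu98)
    obtain ⟨S', hS'S, hS'c⟩ := Finset.exists_subset_card_eq (show t - 1 ≤ S.card by omega)
    exact clique_of_mem_Fam ht2 π (Finset.range_subset_range.2 hNu) hm E hE' le_rfl
      (Fam_down hS hS'S) hS'c

end Pool.Agent.helper890_tame
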