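import Pool.Agent.helper890_tame.Family

/-!
Existence of a large set of scales and the final selection of the vertices.
-/

set_option autoImplicit false
set_option linter.unusedSectionVars false
set_option linter.unusedVariables false

namespace Pool.Agent.helper890_tame

open Finset

variable {q : ℕ} {f : ℕ → ℕ → Fin q} {ε : ℝ} {m : ℕ} {M : ℝ} {c : Fin q}

/-- number of sets of bounded size -/
theorem card_family_le (F : Finset (Finset ℕ)) (v h Y : ℕ) (hY : 1 ≤ Y)
    (hF : ∀ S ∈ F, S ⊆ range v ∧ S.card ≤ h) :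
    (F.card : ℝ) ≤ (Y : ℝ) ^ h * (1 + 1 / (Y : ℝ)) ^ v := by
  have hY0 : (0 : ℝ) < Y := by exact_mod_cast hY
  have hY1 : (1 : ℝ) ≤ Y := by exact_mod_cast hY
  have h1 := Finset.sum_pow_mul_eq_add_pow (1 / (Y : ℝ)) 1 (range v)
  rw [Finset.card_range] at h1
  simp only [one_pow, mul_one] at h1
  have h2 : (F.card : ℝ) ≤ ∑ S ∈ F, (Y : ℝ) ^ h * (1 / (Y : ℝ)) ^ S.card := by
    rw [← nsmul_one, ← Finset.sum_const]
    refine Finset.sum_le_sum fun S hS => ?_
    have h3 := (hF S hS).2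
    rw [one_div, inv_pow, ← div_eq_mul_inv, le_div_iff₀ (by positivity), one_mul]
    exact pow_le_pow_right₀ hY1 h3
  have h4 : ∑ S ∈ F, (Y : ℝ) ^ h * (1 / (Y : ℝ)) ^ S.card ≤
      ∑ S ∈ (range v).powerset, (Y : ℝ) ^ h * (1 / (Y : ℝ)) ^ S.card := by
    apply Finset.sum_le_sum_of_subset_of_nonneg
    · intro S hS
      exact Finset.mem_powerset.2 (hF S hS).1
    · intro S _ _
      positivity
  have h5 : ∑ S ∈ (range v).powerset, (Y : ℝ) ^ h * (1 / (Y : ℝ)) ^ S.card =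
      (Y : ℝ) ^ h * (1 + 1 / (Y : ℝ)) ^ v := by
    rw [← Finset.mul_sum, h1, add_comm (1 / (Y : ℝ)) 1]
  exact h2.trans (h4.trans_eq h5)

/-- greedy selection of one vertex from each of the sets -/
theorem greedy (hm : 1 ≤ m) (E : ℕ) (hE : 1 ≤ ε * E) (n : ℕ) :
    ∀ A : ℕ → Finset ℕ, (∀ i, i < n → ((E : ℝ) ^ n * (n * m + 1)) ≤ ((A i).card : ℝ)) →
      (∀ i j, i < j → j < n → LD f ε m c (A i) (A j)) →
      ∃ a : ℕ → ℕ, (∀ i, i < n → a i ∈ A i) ∧ ∀ i j, i < j → j < n → f (a i) (a j) = c := by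
  classical
  have hE1 : 1 ≤ E := by
    rcases Nat.eq_zero_or_pos E with h | h
    · rw [h] at hE; norm_num at hE
    · exact h
  have hE1' : (1 : ℝ) ≤ E := by exact_mod_cast hE1
  have hε : 0 < ε := by
    have : (0 : ℝ) < ε * E := by linarith
    exact pos_of_mul_pos_left this (by linarith)
  induction n with
  | zero =>
    intro A _ _
    exact ⟨fun _ => 0, fun i hi => absurd hi (Nat.not_lt_zero _), fun i j _ hj => absurd hj (Nat.not_lt_zero _)⟩
  | succ n ih =>
    intro A hA hLD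
    -- bad vertices
    set bad : ℕ → Finset ℕ := fun j =>
      (A 0).filter (fun a => (((A (j + 1)).filter (fun b => f a b = c)).card : ℝ) <
        ε * ((A (j + 1)).card : ℝ)) with hbad
    have hbadc : ∀ j, j < n → (bad j).card < m := by
      intro j hj
      by_contra hcon
      push Not at hcon
      have hAj : m ≤ (A (j + 1)).card := by
        have h1 := hA (j + 1) (by omega)
        have h2 : (m : ℝ) ≤ (E : ℝ) ^ (n + 1) * ((n + 1 : ℕ) * m + 1) := by
          have h3 : (1 : ℝ) ≤ (E : ℝ) ^ (n + 1) := one_le_pow₀ hE1'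
          have h4 : (m : ℝ) ≤ ((n + 1 : ℕ) : ℝ) * m + 1 := by
            push_cast
            have : (0 : ℝ) ≤ (n : ℝ) * m := by positivity
            nlinarith
          have h5 : (0 : ℝ) ≤ ((n + 1 : ℕ) : ℝ) * m + 1 := by positivity
          nlinarith
        exact_mod_cast h2.trans h1
      have h1 := hLD 0 (j + 1) (by omega) (by omega) (bad j) (Finset.filter_subset _ _) (A (j + 1))
        (Finset.Subset.refl _) hcon hAj
      have h2 : (((bad j ×ˢ A (j + 1)).filter (fun p => f p.1 p.2 = c)).card : ℝ) =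
          ∑ a ∈ bad j, (((A (j + 1)).filter (fun b => f a b = c)).card : ℝ) := by
        rw [← Nat.cast_sum]
        congr 1
        rw [Finset.card_filter, Finset.sum_product]
        refine Finset.sum_congr rfl fun a _ => ?_
        rw [Finset.card_filter]
      have hne : (bad j).Nonempty := by
        rw [← Finset.card_pos]; omega
      have h3 : ∑ a ∈ bad j, (((A (j + 1)).filter (fun b => f a b = c)).card : ℝ) <
          ∑ _a ∈ bad j, ε * ((A (j + 1)).card : ℝ) :=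
        Finset.sum_lt_sum_of_nonempty hne (fun a ha => (Finset.mem_filter.1 ha).2)
      rw [Finset.sum_const, nsmul_eq_mul] at h3
      rw [h2] at h1
      nlinarith
    have hcard : (((range n).biUnion bad).card) < (A 0).card := by
      have h1 : ((range n).biUnion bad).card ≤ n * m := by
        calc ((range n).biUnion bad).card ≤ ∑ j ∈ range n, (bad j).card := Finset.card_biUnion_le
          _ ≤ ∑ _j ∈ range n, m := Finset.sum_le_sum fun j hj => (hbadc j (Finset.mem_range.1 hj)).le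
          _ = n * m := by rw [Finset.sum_const, Finset.card_range, smul_eq_mul]
      have h2 := hA 0 (by omega)
      have h3 : (n : ℝ) * m < (E : ℝ) ^ (n + 1) * ((n + 1 : ℕ) * m + 1) := by
        have h4 : (1 : ℝ) ≤ (E : ℝ) ^ (n + 1) := one_le_pow₀ hE1'
        have h5 : (n : ℝ) * m < ((n + 1 : ℕ) : ℝ) * m + 1 := by
          push_cast
          have : (0 : ℝ) ≤ (m : ℝ) := by positivity
          nlinarith
        have h6 : (0 : ℝ) ≤ ((n + 1 : ℕ) : ℝ) * m + 1 := by positivity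
        nlinarith
      have h7 : ((n * m : ℕ) : ℝ) < ((A 0).card : ℝ) := by
        push_cast
        linarith
      have h8 : n * m < (A 0).card := by exact_mod_cast h7
      omega
    obtain ⟨a₀, ha₀, hgood⟩ : ∃ a ∈ A 0, a ∉ (range n).biUnion bad := by
      by_contra hcon
      push Not at hcon
      have : A 0 ⊆ (range n).biUnion bad := fun a ha => hcon a ha
      exact absurd (Finset.card_le_card this) (not_le.2 hcard)
    have hgood' : ∀ j, j < n → ε * ((A (j + 1)).card : ℝ) ≤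
        (((A (j + 1)).filter (fun b => f a₀ b = c)).card : ℝ) := by
      intro j hj
      by_contra hcon
      push Not at hcon
      apply hgood
      rw [Finset.mem_biUnion]
      exact ⟨j, Finset.mem_range.2 hj, Finset.mem_filter.2 ⟨ha₀, hcon⟩⟩
    obtain ⟨a, h1, h2⟩ := ih (fun j => (A (j + 1)).filter (fun b => f a₀ b = c)) (by
      intro j hj
      refine le_trans ?_ (hgood' j hj)
      have h3 := hA (j + 1) (by omega)
      have h4 : (E : ℝ) ^ n * (n * m + 1) ≤ (E : ℝ) ^ n * ((n + 1 : ℕ) * m + 1) := by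
        apply mul_le_mul_of_nonneg_left _ (by positivity)
        push_cast
        have : (0 : ℝ) ≤ (m : ℝ) := by positivity
        nlinarith
      have h5 : (0 : ℝ) ≤ (E : ℝ) ^ n * ((n + 1 : ℕ) * m + 1) := by positivity
      calc (E : ℝ) ^ n * (n * m + 1) ≤ (E : ℝ) ^ n * ((n + 1 : ℕ) * m + 1) := h4
        _ = 1 * ((E : ℝ) ^ n * ((n + 1 : ℕ) * m + 1)) := (one_mul _).symm
        _ ≤ (ε * E) * ((E : ℝ) ^ n * ((n + 1 : ℕ) * m + 1)) := mul_le_mul_of_nonneg_right hE h5
        _ = ε * ((E : ℝ) ^ (n + 1) * ((n + 1 : ℕ) * m + 1)) := by rw [pow_succ]; ring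
        _ ≤ ε * ((A (j + 1)).card : ℝ) := mul_le_mul_of_nonneg_left h3 hε.le) (by
      intro i j hij hj
      exact (hLD (i + 1) (j + 1) (by omega) (by omega)).mono (Finset.filter_subset _ _)
        (Finset.filter_subset _ _))
    refine ⟨fun i => Nat.casesOn i a₀ a, ?_, ?_⟩
    · intro i hi
      cases i with
      | zero => exact ha₀
      | succ i => exact (Finset.mem_filter.1 (h1 i (by omega))).1
    · intro i j hij hj
      cases j with
      | zero => exact absurd hij (Nat.not_lt_zero _)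
      | succ j =>
        cases i with
        | zero => exact (Finset.mem_filter.1 (h1 j (by omega))).2
        | succ i => exact h2 i j (by omega) (by omega)

/-- a large set of scales -/
theorem exists_large {η : ℝ} (hη : 0 < η) (hq : 0 < q) {N : ℕ} (hT : Tame f η ε m N) (K : ℕ)
    (hK0 : 1 ≤ K)
    (hK : 3 / (2 * η) ≤ 2 ^ K) (C₀ : ℝ) (hC₀ : 4 / η ≤ C₀) (hC₁ : 1 ≤ C₀) (hM : 1 ≤ M)
    (u h Y : ℕ) (hY : 1 ≤ Y) (hYp : (1 + 1 / (Y : ℝ)) ^ (2 * q * K) ≤ 9 / 8)
    (hN : 3 ^ (2 * u) ≤ N) (hMu : M ≤ 3 ^ (2 * u))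
    (hu : C₀ * M * (Y : ℝ) ^ (h * q * K) < (9 / 8) ^ u) :
    ∃ (c : Fin q) (S : Finset ℕ), S ∈ Fam f ε m M c (2 * u) (range (3 ^ (2 * u))) ∧ h < S.card := by
  by_contra hcon
  push Not at hcon
  set v := 2 * u with hv
  have hMX : M ≤ ((range (3 ^ v)).card : ℝ) := by
    rw [Finset.card_range]; push_cast; exact hMu
  have h1 := main_ineq hη hT K hK C₀ hC₀ hC₁ hM v 0 (range (3 ^ v)) (by
    intro a ha
    rw [Finset.mem_Ico]
    have := Finset.mem_range.1 ha
    omega) (Finset.range_subset_range.2 hN) hMX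
  rw [Finset.card_range] at h1
  push_cast at h1
  have hFf : (Ff f ε m M v (range (3 ^ v)) : ℝ) ≤ ((Y : ℝ) ^ h * (1 + 1 / (Y : ℝ)) ^ v) ^ q := by
    unfold Ff
    push_cast
    calc ∏ c : Fin q, ((Fam f ε m M c v (range (3 ^ v))).card : ℝ)
        ≤ ∏ _c : Fin q, ((Y : ℝ) ^ h * (1 + 1 / (Y : ℝ)) ^ v) :=
          Finset.prod_le_prod (fun _ _ => by positivity) (fun c _ =>
            card_family_le _ v h Y hY (fun S hS => ⟨(mem_Fam.1 hS).1, hcon c S hS⟩))
      _ = _ := by rw [Finset.prod_const, Finset.card_univ, Fintype.card_fin]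
  have hFK : (Ff f ε m M v (range (3 ^ v)) : ℝ) ^ K ≤ (Y : ℝ) ^ (h * q * K) * (9 / 8) ^ u := by
    calc (Ff f ε m M v (range (3 ^ v)) : ℝ) ^ K
        ≤ (((Y : ℝ) ^ h * (1 + 1 / (Y : ℝ)) ^ v) ^ q) ^ K := pow_le_pow_left₀ (by positivity) hFf K
      _ = (Y : ℝ) ^ (h * q * K) * ((1 + 1 / (Y : ℝ)) ^ (2 * q * K)) ^ u := by
          rw [← pow_mul, mul_pow, ← pow_mul, ← pow_mul, ← pow_mul, hv]
          congr 1
          · congr 1; ring
          · congr 1; ring
      _ ≤ (Y : ℝ) ^ (h * q * K) * (9 / 8) ^ u :=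
          mul_le_mul_of_nonneg_left (pow_le_pow_left₀ (by positivity) hYp u) (by positivity)
  have hCM : 0 ≤ C₀ * M := by positivity
  have h2 : (3 : ℝ) ^ v * 3 ^ v ≤ ((Y : ℝ) ^ (h * q * K) * (9 / 8) ^ u) * (C₀ * M) * 8 ^ v :=
    h1.trans (mul_le_mul_of_nonneg_right (mul_le_mul_of_nonneg_right hFK hCM) (by positivity))
  have e1 : (3 : ℝ) ^ v * 3 ^ v = ((9 / 8) ^ u * (9 / 8) ^ u) * 8 ^ v := by
    rw [hv, ← mul_pow, ← mul_pow, pow_mul, pow_mul, ← mul_pow]
    congr 1
    norm_num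
  rw [e1] at h2
  have h3 : (9 / 8 : ℝ) ^ u * (9 / 8) ^ u ≤ (Y : ℝ) ^ (h * q * K) * (9 / 8) ^ u * (C₀ * M) :=
    le_of_mul_le_mul_right h2 (by positivity)
  have h4 : (9 / 8 : ℝ) ^ u * (9 / 8) ^ u ≤ (C₀ * M * (Y : ℝ) ^ (h * q * K)) * (9 / 8) ^ u := by
    calc (9 / 8 : ℝ) ^ u * (9 / 8) ^ u ≤ (Y : ℝ) ^ (h * q * K) * (9 / 8) ^ u * (C₀ * M) := h3
      _ = _ := by ring
  have h5 := le_of_mul_le_mul_right h4 (by positivity : (0 : ℝ) < (9 / 8) ^ u)
  linarith

theorem exists_Y (n : ℕ) (hn : 1 ≤ n) : (1 + 1 / ((9 * n : ℕ) : ℝ)) ^ n ≤ 9 / 8 := by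
  have hn' : (1 : ℝ) ≤ n := by exact_mod_cast hn
  set y : ℝ := ((9 * n : ℕ) : ℝ) with hy
  have hy9 : y = 9 * n := by rw [hy]; push_cast; ring
  have hy0 : 0 < y := by rw [hy9]; linarith
  -- `(y/(y+1))^n ≥ 1 - n/(y+1) ≥ 8/9`
  have h1 := one_add_mul_le_pow (a := -(1 / (y + 1))) (by
    have : 1 / (y + 1) ≤ 1 := by
      rw [div_le_one (by linarith)]; linarith
    linarith) n
  have h2 : (8 : ℝ) / 9 ≤ 1 + (n : ℝ) * -(1 / (y + 1)) := by
    have : (n : ℝ) * (1 / (y + 1)) ≤ 1 / 9 := by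
      rw [mul_one_div, div_le_iff₀ (by linarith), hy9]
      linarith
    linarith
  have h3 : 1 + -(1 / (y + 1)) = (1 + 1 / y)⁻¹ := by
    field_simp
    ring
  rw [h3, inv_pow] at h1
  have h4 : (8 : ℝ) / 9 ≤ ((1 + 1 / y) ^ n)⁻¹ := h2.trans h1
  have h5 : 0 < (1 + 1 / y) ^ n := by positivity
  rw [le_inv_comm₀ (by norm_num) h5] at h4
  calc (1 + 1 / y) ^ n ≤ (8 / 9 : ℝ)⁻¹ := h4
    _ = 9 / 8 := by norm_num

end Pool.Agent.helper890_tame
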